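import Pool.Agent.Helper35.Cq.Defs

/-!
# Loss of long pairs under contraction
-/

set_option autoImplicit false

open Finset Module
open scoped Classical

namespace Pool.Agent.Helper35.Cq

namespace PairsCon

section basic
variable {F : Type*} [Field F] {V : Type*} [AddCommGroup V] [Module F V] {E : Finset V}

lemma long_symm (hE : Conic F E) {x y : V} (h : Long F E x y) : Long F E y x := by
  obtain ⟨h1, b, hb, h2⟩ := h
  refine ⟨fun a c hac => ?_, b⁻¹, inv_ne_zero hb, ?_⟩
  · obtain ⟨h3, h4⟩ := h1 c a (by rw [add_comm]; exact hac)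
    exact ⟨h4, h3⟩
  · have h3 := hE.smul_mem b⁻¹ (inv_ne_zero hb) _ h2
    rw [smul_add, smul_smul, inv_mul_cancel₀ hb, one_smul, add_comm] at h3
    exact h3

lemma long_of_add (hE : Conic F E) {x y : V}
    (hind : ∀ a b : F, a • x + b • y = 0 → a = 0 ∧ b = 0) {a : F} (ha : a ≠ 0)
    (h : y + a • x ∈ E) : Long F E x y := by
  refine ⟨hind, a⁻¹, inv_ne_zero ha, ?_⟩
  have h3 := hE.smul_mem a⁻¹ (inv_ne_zero ha) _ h
  rw [smul_add, smul_smul, inv_mul_cancel₀ ha, one_smul, add_comm] at h3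
  exact h3

lemma indep3 {x y z : V} (h : ∀ a b : F, a • y + b • z = 0 → a = 0 ∧ b = 0)
    (hx : ¬ ∃ a b : F, x = a • y + b • z) (a b c : F) (h0 : a • x + b • y + c • z = 0) :
    a = 0 ∧ b = 0 ∧ c = 0 := by
  have ha : a = 0 := by
    by_contra ha
    apply hx
    refine ⟨-(a⁻¹ * b), -(a⁻¹ * c), ?_⟩
    have h1 : a⁻¹ • (a • x + b • y + c • z) = 0 := by rw [h0, smul_zero]
    rw [smul_add, smul_add, smul_smul, smul_smul, smul_smul, inv_mul_cancel₀ ha, one_smul] at h1
    rw [neg_smul, neg_smul, ← neg_add, eq_neg_iff_add_eq_zero, ← add_assoc]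
    exact h1
  refine ⟨ha, h b c ?_⟩
  rw [ha, zero_smul, zero_add] at h0
  exact h0

lemma mkQ_eq {x y y' : V} (h : (Submodule.span F {x}).mkQ y' = (Submodule.span F {x}).mkQ y) :
    ∃ a : F, y' = y + a • x := by
  rw [Submodule.mkQ_apply, Submodule.mkQ_apply, Submodule.Quotient.eq,
    Submodule.mem_span_singleton] at h
  obtain ⟨a, ha⟩ := h
  exact ⟨a, by rw [ha]; abel⟩

lemma mkQ_zero {x y : V} (h : (Submodule.span F {x}).mkQ y = 0) : ∃ a : F, y = a • x := by
  obtain ⟨a, ha⟩ := mkQ_eq (x := x) (y := 0) (y' := y) (by rw [h, map_zero])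
  exact ⟨a, by rw [ha, zero_add]⟩

/-- the long pairs whose span does not contain `x` survive the contraction -/
lemma pair_con {x y z : V} (hy : y ∈ E) (hz : z ∈ E) (h : Long F E y z)
    (hx : ¬ ∃ a b : F, x = a • y + b • z) :
    ((Submodule.span F {x}).mkQ y, (Submodule.span F {x}).mkQ z) ∈
      pairs F (con F E x) (con F E x) (con F E x) := by
  have h3 := indep3 h.1 hx
  have hind : ∀ a b : F, a • (Submodule.span F {x}).mkQ y + b • (Submodule.span F {x}).mkQ z = 0 →
      a = 0 ∧ b = 0 := by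
    intro a b hab
    rw [← map_smul, ← map_smul, ← map_add] at hab
    obtain ⟨c, hc⟩ := mkQ_zero hab
    obtain ⟨-, h4, h5⟩ := h3 (-c) a b (by rw [add_assoc, hc, neg_smul, neg_add_cancel])
    exact ⟨h4, h5⟩
  have hm : ∀ v ∈ E, (Submodule.span F {x}).mkQ v ≠ 0 →
      (Submodule.span F {x}).mkQ v ∈ con F E x := by
    intro v hv hv0
    exact mem_erase.2 ⟨hv0, mem_image_of_mem _ hv⟩
  obtain ⟨-, b, hb, hb2⟩ := h
  refine mem_filter.2 ⟨mem_product.2 ⟨hm _ hy ?_, hm _ hz ?_⟩, hind, b, hb, ?_⟩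
  · intro h0
    exact one_ne_zero (hind 1 0 (by rw [h0, smul_zero, zero_smul, add_zero])).1
  · intro h0
    exact one_ne_zero (hind 0 1 (by rw [h0, smul_zero, zero_smul, add_zero])).2
  · change (Submodule.span F {x}).mkQ y + b • (Submodule.span F {x}).mkQ z ∈ con F E x
    rw [← map_smul, ← map_add]
    refine hm _ hb2 fun h0 => ?_
    rw [map_add, map_smul] at h0
    exact one_ne_zero (hind 1 b (by rw [one_smul]; exact h0)).1

/-- a surviving pair which is not alone in its fibre -/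
lemma fibre (hE : Conic F E) {x y z y' z' : V} (hy : y ∈ E) (hz : z ∈ E) (h : Long F E y z)
    (hx : ¬ ∃ a b : F, x = a • y + b • z) (hy' : y' ∈ E) (hz' : z' ∈ E) (h' : Long F E y' z')
    (hne : (y', z') ≠ (y, z))
    (e1 : (Submodule.span F {x}).mkQ y' = (Submodule.span F {x}).mkQ y)
    (e2 : (Submodule.span F {x}).mkQ z' = (Submodule.span F {x}).mkQ z) :
    (y, z) ∈ pairs F E (nb F E x) (nb F E x) ∪ (shifted F E x ∪ (shifted F E x).image Prod.swap) := by
  obtain ⟨a, rfl⟩ := mkQ_eq e1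
  obtain ⟨b, rfl⟩ := mkQ_eq e2
  have h3 := indep3 h.1 hx
  have hxy : ∀ c d : F, c • x + d • y = 0 → c = 0 ∧ d = 0 := by
    intro c d hcd
    obtain ⟨h4, h5, -⟩ := h3 c d 0 (by rw [zero_smul, add_zero]; exact hcd)
    exact ⟨h4, h5⟩
  have hxz : ∀ c d : F, c • x + d • z = 0 → c = 0 ∧ d = 0 := by
    intro c d hcd
    obtain ⟨h4, -, h5⟩ := h3 c 0 d (by rw [zero_smul, add_zero]; exact hcd)
    exact ⟨h4, h5⟩
  have hny : a ≠ 0 → y ∈ nb F E x := fun ha => mem_filter.2 ⟨hy, long_of_add hE hxy ha hy'⟩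
  have hnz : b ≠ 0 → z ∈ nb F E x := fun hb => mem_filter.2 ⟨hz, long_of_add hE hxz hb hz'⟩
  by_cases ha : a = 0
  · by_cases hb : b = 0
    · exfalso
      apply hne
      rw [ha, hb, zero_smul, add_zero, add_zero]
    · refine mem_union_right _ (mem_union_right _ (mem_image.2 ⟨(z, y), ?_, rfl⟩))
      refine mem_filter.2 ⟨mem_filter.2 ⟨mem_product.2 ⟨hnz hb, hy⟩, long_symm hE h⟩, b, hb, hz', ?_⟩
      rw [ha, zero_smul, add_zero] at h'
      exact long_symm hE h'
  · by_cases hb : b = 0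
    · refine mem_union_right _ (mem_union_left _ ?_)
      refine mem_filter.2 ⟨mem_filter.2 ⟨mem_product.2 ⟨hny ha, hz⟩, h⟩, a, ha, hy', ?_⟩
      rw [hb, zero_smul, add_zero] at h'
      exact h'
    · exact mem_union_left _ (mem_filter.2 ⟨mem_product.2 ⟨hny ha, hnz hb⟩, h⟩)

/-- the long pairs whose span contains `x` -/
lemma inside (hE : Conic F E) {x y z : V} (hx : x ∈ E) (hy : y ∈ E) (hz : z ∈ E)
    (h : Long F E y z) {a b : F} (hab : x = a • y + b • z) :
    (y ∈ nb F E x ∧ ∃ c d : F, z = c • x + d • y) ∨ (z ∈ nb F E x ∧ ∃ c : F, y = c • x) := by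
  have hx0 := hE.ne_zero x hx
  by_cases hb : b = 0
  · right
    have ha : a ≠ 0 := by
      rintro rfl
      apply hx0
      rw [hab, hb, zero_smul, zero_smul, add_zero]
    rw [hb, zero_smul, add_zero] at hab
    have hy2 : y = a⁻¹ • x := by rw [hab, smul_smul, inv_mul_cancel₀ ha, one_smul]
    refine ⟨mem_filter.2 ⟨hz, fun c d hcd => ?_, ?_⟩, a⁻¹, hy2⟩
    · obtain ⟨h4, h5⟩ := h.1 (c * a) d (by rw [mul_smul, ← hab]; exact hcd)
      exact ⟨(mul_eq_zero.1 h4).resolve_right ha, h5⟩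
    · obtain ⟨-, d, hd, hd2⟩ := h
      refine ⟨a * d, mul_ne_zero ha hd, ?_⟩
      have := hE.smul_mem a ha _ hd2
      rwa [smul_add, ← hab, smul_smul] at this
  · left
    have hz2 : z = b⁻¹ • x + (-(b⁻¹ * a)) • y := by
      rw [hab, smul_add, smul_smul, smul_smul, inv_mul_cancel₀ hb, one_smul, neg_smul]
      abel
    refine ⟨mem_filter.2 ⟨hy, ?_⟩, b⁻¹, -(b⁻¹ * a), hz2⟩
    have hind : ∀ c d : F, c • x + d • y = 0 → c = 0 ∧ d = 0 := by
      intro c d hcd
      rw [hab, smul_add, smul_smul, smul_smul] at hcd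
      obtain ⟨h4, h5⟩ := h.1 (c * a + d) (c * b) (by
        rw [add_smul]
        rw [← hcd]
        abel)
      have hc : c = 0 := (mul_eq_zero.1 h5).resolve_right hb
      rw [hc, zero_mul, zero_add] at h4
      exact ⟨hc, h4⟩
    refine ⟨hind, ?_⟩
    by_cases ha : a = 0
    · obtain ⟨-, d, hd, hd2⟩ := h
      rw [ha, zero_smul, zero_add] at hab
      refine ⟨b * d⁻¹, mul_ne_zero hb (inv_ne_zero hd), ?_⟩
      have h5 := hE.smul_mem (b * d⁻¹) (mul_ne_zero hb (inv_ne_zero hd)) _ hd2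
      rw [smul_add, smul_smul, mul_assoc, inv_mul_cancel₀ hd, mul_one, ← hab, add_comm] at h5
      exact h5
    · refine ⟨-a, neg_ne_zero.2 ha, ?_⟩
      have h5 := hE.smul_mem b hb _ hz
      have h6 : x + (-a) • y = b • z := by
        rw [hab, neg_smul]
        abel
      rw [h6]
      exact h5

end basic

end PairsCon

section con
variable {F : Type*} [Field F] {V : Type*} [AddCommGroup V] [Module F V]
  {E : Finset V} (hE : Conic F E) {x : V} (hx : x ∈ E)
include hE hx

open PairsCon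

theorem pairs_le_con [Fintype F] : (pairs F E E E).card ≤
    (pairs F (con F E x) (con F E x) (con F E x)).card + 2 * Fintype.card F ^ 2 * (nb F E x).card
      + (pairs F E (nb F E x) (nb F E x)).card + 2 * (shifted F E x).card := by
  set P := pairs F E E E with hP
  set φ : V × V → (V ⧸ Submodule.span F {x}) × (V ⧸ Submodule.span F {x}) :=
    fun p => ((Submodule.span F {x}).mkQ p.1, (Submodule.span F {x}).mkQ p.2) with hφ
  set P1 := P.filter fun p => ∃ a b : F, x = a • p.1 + b • p.2 with hP1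
  set P2 := P.filter fun p => ¬ ∃ a b : F, x = a • p.1 + b • p.2 with hP2
  set P3 := P2.filter fun p => ∃ p' ∈ P2, p' ≠ p ∧ φ p' = φ p with hP3
  set P4 := P2.filter fun p => ¬ ∃ p' ∈ P2, p' ≠ p ∧ φ p' = φ p with hP4
  have hPm : ∀ p ∈ P, p.1 ∈ E ∧ p.2 ∈ E ∧ Long F E p.1 p.2 := by
    intro p hp
    obtain ⟨h1, h2⟩ := mem_filter.1 hp
    obtain ⟨h3, h4⟩ := mem_product.1 h1
    exact ⟨h3, h4, h2⟩
  have c1 : P.card = P1.card + P2.card :=
    (card_filter_add_card_filter_not (s := P) fun p => ∃ a b : F, x = a • p.1 + b • p.2).symm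
  have c2 : P2.card = P3.card + P4.card :=
    (card_filter_add_card_filter_not (s := P2) fun p => ∃ p' ∈ P2, p' ≠ p ∧ φ p' = φ p).symm
  -- the pairs alone in their fibre
  have c4 : P4.card ≤ (pairs F (con F E x) (con F E x) (con F E x)).card := by
    refine card_le_card_of_injOn φ ?_ ?_
    · intro p hp
      obtain ⟨h1, -⟩ := mem_filter.1 (mem_coe.1 hp)
      obtain ⟨h2, h3⟩ := mem_filter.1 h1
      obtain ⟨h4, h5, h6⟩ := hPm p h2
      exact pair_con h4 h5 h6 h3
    · intro p hp p' hp' hpp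
      obtain ⟨h1, -⟩ := mem_filter.1 (mem_coe.1 hp)
      obtain ⟨-, h2⟩ := mem_filter.1 (mem_coe.1 hp')
      by_contra hne
      exact h2 ⟨p, h1, hne, hpp⟩
  -- the other surviving pairs
  have c3 : P3.card ≤ (pairs F E (nb F E x) (nb F E x)).card + 2 * (shifted F E x).card := by
    have hsub : P3 ⊆ pairs F E (nb F E x) (nb F E x) ∪
        (shifted F E x ∪ (shifted F E x).image Prod.swap) := by
      intro p hp
      obtain ⟨h1, p', h2, h3, h4⟩ := mem_filter.1 hp
      obtain ⟨h5, h6⟩ := mem_filter.1 h1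
      obtain ⟨h7, -⟩ := mem_filter.1 h2
      obtain ⟨a1, a2, a3⟩ := hPm p h5
      obtain ⟨b1, b2, b3⟩ := hPm p' h7
      exact fibre hE a1 a2 a3 h6 b1 b2 b3 h3 (congrArg Prod.fst h4) (congrArg Prod.snd h4)
    have k1 := (card_le_card hsub).trans (card_union_le _ _)
    have k2 := card_union_le (shifted F E x) ((shifted F E x).image Prod.swap)
    have k3 : ((shifted F E x).image Prod.swap).card ≤ (shifted F E x).card := card_image_le
    omega
  -- the pairs with `x` in their span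
  have c5 : P1.card ≤ 2 * Fintype.card F ^ 2 * (nb F E x).card := by
    have hsub : P1 ⊆ ((nb F E x ×ˢ (univ : Finset (F × F))).image
          fun q => (q.1, q.2.1 • x + q.2.2 • q.1)) ∪
        (((univ : Finset F) ×ˢ nb F E x).image fun q => (q.1 • x, q.2)) := by
      intro p hp
      obtain ⟨h1, a, b, h2⟩ := mem_filter.1 hp
      obtain ⟨h3, h4, h5⟩ := hPm p h1
      rcases inside hE hx h3 h4 h5 h2 with ⟨h6, c, d, h7⟩ | ⟨h6, c, h7⟩
      · refine mem_union_left _ (mem_image.2 ⟨(p.1, (c, d)), mem_product.2 ⟨h6, mem_univ _⟩, ?_⟩)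
        exact Prod.ext rfl h7.symm
      · refine mem_union_right _ (mem_image.2 ⟨(c, p.2), mem_product.2 ⟨mem_univ _, h6⟩, ?_⟩)
        exact Prod.ext h7.symm rfl
    have k1 := (card_le_card hsub).trans (card_union_le _ _)
    have k2 := (card_image_le (s := nb F E x ×ˢ (univ : Finset (F × F)))
      (f := fun q : V × (F × F) => (q.1, q.2.1 • x + q.2.2 • q.1)))
    have k3 := (card_image_le (s := (univ : Finset F) ×ˢ nb F E x)
      (f := fun q : F × V => (q.1 • x, q.2)))
    rw [card_product, card_univ, Fintype.card_prod] at k2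
    rw [card_product, card_univ] at k3
    have hq : 1 ≤ Fintype.card F := Fintype.card_pos
    have k4 : Fintype.card F * (nb F E x).card ≤ Fintype.card F ^ 2 * (nb F E x).card := by
      refine Nat.mul_le_mul_right _ ?_
      rw [pow_two]
      exact Nat.le_mul_of_pos_left _ hq
    have k5 : (nb F E x).card * (Fintype.card F * Fintype.card F) =
        Fintype.card F ^ 2 * (nb F E x).card := by ring
    have k6 : 2 * Fintype.card F ^ 2 * (nb F E x).card =
        Fintype.card F ^ 2 * (nb F E x).card + Fintype.card F ^ 2 * (nb F E x).card := by ring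
    rw [k6]
    rw [k5] at k2
    exact k1.trans (Nat.add_le_add k2 (k3.trans k4))
  omega

end con

end Pool.Agent.Helper35.Cq
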